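import Pool.Agent.H857N.NA6

set_option autoImplicit false
open Filter Topology
open scoped ComplexOrder InnerProductSpace

namespace Pool.Agent.H857N

open Pool.H711R2

variable {H : Type*} [NormedAddCommGroup H] [InnerProductSpace ℂ H] [CompleteSpace H]
variable {M : VonNeumannAlgebra H} {k : ℕ}
variable {T : Fin k → (H →L[ℂ] H)}

/-- simultaneous strictly triangular approximation in norm -/
theorem main_norm (hT : ∀ i, T i ∈ M) (hTc : ∀ v, ∑ i, ‖T i v‖ ^ 2 ≤ ‖v‖ ^ 2)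
    (hq : ∀ r : ℝ, 0 < r → ∃ n : ℕ, 1 ≤ n ∧ ∀ v, Qn T n v ≤ (r ^ 2) ^ n * ‖v‖ ^ 2)
    {δ : ℝ} (hδ : 0 < δ) :
    ∃ (J : ℕ) (P : ℕ → (H →L[ℂ] H)) (N : Fin k → (H →L[ℂ] H)) (κ : ℝ),
      0 < κ ∧ P 0 = 0 ∧ P J = 1 ∧
      (∀ j, P j ∈ M ∧ IsStarProjection (P j) ∧ P (j + 1) * P j = P j) ∧
      (∀ i, N i ∈ M) ∧ (∀ v, ∑ i, ‖(T i - N i) v‖ ^ 2 ≤ (δ * ‖v‖) ^ 2) ∧
      (∀ i j, N i * P (j + 1) = P j * N i * P (j + 1)) ∧
      (∀ w : List (Fin k), J ≤ w.length → (w.map N).prod = 0) ∧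
      ∀ S : H →L[ℂ] H, (∀ i, ‖S * T i - T i * S‖ ≤ κ * ‖S‖) →
        ∀ j, ‖(1 - P (j + 1)) * S * P j‖ ≤ δ * ‖S‖ := by
  set K : ℝ := max 2 (2 / δ) with hKdef
  have hK2 : 2 ≤ K := le_max_left _ _
  have hK1 : 1 ≤ K := by linarith
  have hK0 : 0 < K := by linarith
  have hKδ : 2 * K⁻¹ ≤ δ := by
    have h : 2 / δ ≤ K := le_max_right _ _
    rw [div_le_iff₀ hδ] at h
    rw [← div_eq_mul_inv, div_le_iff₀ hK0]; linarith
  set η : ℝ := δ / (2 * K) with hηdef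
  have hη : 0 < η := by positivity
  have hηK : 2 * η * K = δ := by
    rw [hηdef]; field_simp
  obtain ⟨n, hn, hpq⟩ := hq η hη
  set c : ℝ := (η ^ 2)⁻¹ with hc
  have hc0 : 0 ≤ c := by positivity
  obtain ⟨d, hdM, hds, hd⟩ := exists_sqrt_sa (Gr_mem T hT c n) (Gr_nonneg T hc0 n)
  have hdq : ∀ v, ‖d v‖ ^ 2 = ∑ j ∈ Finset.range n, c ^ j * Qn T j v := by
    intro v; rw [← Gr_quad, hd, inner_aa, isr]
  have hterm : ∀ v, ∀ j < n, c ^ j * Qn T j v ≤ ‖d v‖ ^ 2 := by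
    intro v j hj
    rw [hdq]
    refine Finset.single_le_sum (f := fun j => c ^ j * Qn T j v) (fun l _ => ?_)
      (Finset.mem_range.mpr hj)
    have := Qn_nonneg T l v
    positivity
  have hd1 : ∀ v, ‖v‖ ≤ ‖d v‖ := by
    intro v
    have h := hterm v 0 (by omega)
    rw [Qn_zero, pow_zero, one_mul] at h
    exact (abs_le_of_sq_le_sq' h (norm_nonneg _)).2
  -- contraction in the new norm
  have hcon : ∀ v, ∑ i, ‖d (T i v)‖ ^ 2 ≤ η ^ 2 * ‖d v‖ ^ 2 := by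
    intro v
    have h1 : c * ∑ i, ‖d (T i v)‖ ^ 2 = ∑ j ∈ Finset.range n, c ^ (j + 1) * Qn T (j + 1) v := by
      simp only [hdq]
      rw [Finset.sum_comm, Finset.mul_sum]
      refine Finset.sum_congr rfl fun j _ => ?_
      rw [← Finset.mul_sum, ← Qn_succ, pow_succ]; ring
    have h2 : ∑ j ∈ Finset.range n, c ^ (j + 1) * Qn T (j + 1) v =
        ‖d v‖ ^ 2 - ‖v‖ ^ 2 + c ^ n * Qn T n v := by
      have h3 := Finset.sum_range_succ' (fun j => c ^ j * Qn T j v) n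
      have h4 := Finset.sum_range_succ (fun j => c ^ j * Qn T j v) n
      simp only [pow_zero, one_mul, Qn_zero] at h3
      rw [← hdq] at h4
      linarith
    have h5 : c ^ n * Qn T n v ≤ ‖v‖ ^ 2 := by
      have h6 : c ^ n * (η ^ 2) ^ n = 1 := by
        rw [← mul_pow, hc, inv_mul_cancel₀ (by positivity), one_pow]
      calc c ^ n * Qn T n v ≤ c ^ n * ((η ^ 2) ^ n * ‖v‖ ^ 2) := by
            have := hpq v
            gcongr
        _ = ‖v‖ ^ 2 := by rw [← mul_assoc, h6, one_mul]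
    have h7 : c * ∑ i, ‖d (T i v)‖ ^ 2 ≤ ‖d v‖ ^ 2 := by rw [h1, h2]; linarith
    have h8 : η ^ 2 * c = 1 := by rw [hc, mul_inv_cancel₀ (by positivity)]
    calc ∑ i, ‖d (T i v)‖ ^ 2 = η ^ 2 * (c * ∑ i, ‖d (T i v)‖ ^ 2) := by
          rw [← mul_assoc, h8, one_mul]
      _ ≤ η ^ 2 * ‖d v‖ ^ 2 := by gcongr
  obtain ⟨J', hJ'⟩ := R_top (d := d) (K := K) (by linarith)
  set J := J' + 1 with hJdef
  have hL : ∀ v, ∑ i, ‖Lo T d K J 1 i v‖ ^ 2 ≤ (2 * η * K * ‖v‖) ^ 2 := fun v =>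
    Lo_norm hK2 hd1 hJ' hη.le (fun v => by simp) (fun j _ v => by
      rw [one_apply_eq_self]
      refine (hcon _).trans ?_
      rw [mul_assoc, mul_pow]
      have := low_De (d := d) hK1 j v
      gcongr) v
  have hXtri : ∀ i l, R d K l * Xo T d K J 1 i * R d K (l + 1) =
      Xo T d K J 1 i * R d K (l + 1) := fun i l =>
    Xo_tri hK1 (fun l => by rw [mul_one, one_mul]) i l
  set C : ℝ := ∑ j ∈ Finset.range n, c ^ j * (j : ℝ) ^ 2 with hC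
  have hC0 : 0 ≤ C := Finset.sum_nonneg fun j _ => by positivity
  have hkC : 0 < k * C + 1 := by positivity
  refine ⟨J, R d K, Xo T d K J 1, (√(k * C + 1))⁻¹, by positivity, rfl, hJ',
    fun j => ⟨R_mem hdM j, R_proj j, R_mul_of_le hK1 (Nat.le_succ j)⟩,
    fun i => Xo_mem hT hdM (vn_one M) i, ?_, fun i l => (hXtri i l).symm, ?_, ?_⟩
  · intro v
    have h1 : ∀ i, T i - Xo T d K J 1 i = Lo T d K J 1 i := by
      intro i
      have := Xo_add_Lo (T := T) (q := 1) hJ' i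
      rw [mul_one] at this
      rw [← this]; abel
    simp only [h1]
    rw [← hηK]
    exact hL v
  · intro w hw
    have := prod_tri (P := R d K) rfl (fun i l => (hXtri i l).symm) w J hw
    rwa [hJ', mul_one] at this
  · intro S hS j
    have h1 : ∀ v, ‖d (S v)‖ ≤ 2 * ‖S‖ * ‖d v‖ := by
      refine d_comm hT hTc hc0 hd hd1 (κ := (√(k * C + 1))⁻¹ * ‖S‖) (by positivity) hS ?_
      have e1 : (√k * ((√(k * C + 1))⁻¹ * ‖S‖)) ^ 2 * C = (k * C) * (k * C + 1)⁻¹ * ‖S‖ ^ 2 := by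
        rw [mul_pow, mul_pow, inv_pow, Real.sq_sqrt (Nat.cast_nonneg k), Real.sq_sqrt hkC.le]
        ring
      rw [← hC, e1]
      have e2 : (k * C) * (k * C + 1)⁻¹ ≤ 1 := by
        rw [← div_eq_mul_inv, div_le_one hkC]; linarith
      calc (k * C) * (k * C + 1)⁻¹ * ‖S‖ ^ 2 ≤ 1 * ‖S‖ ^ 2 := by gcongr
        _ = ‖S‖ ^ 2 := one_mul _
    refine (R_hyp hK1 h1 j).trans ?_
    gcongr

end Pool.Agent.H857N
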