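import Pool.Agent.H857N.NB1

set_option autoImplicit false
open Filter Topology
open scoped ComplexOrder InnerProductSpace

namespace Pool.Agent.H857N

open Pool.H711R2

variable {H : Type*} [NormedAddCommGroup H] [InnerProductSpace ℂ H] [CompleteSpace H]
variable {M : VonNeumannAlgebra H} {k : ℕ}

omit [CompleteSpace H] in
lemma prod_smul_list (c : ℂ) (T : Fin k → (H →L[ℂ] H)) (l : List (Fin k)) :
    (l.map fun i => c • T i).prod = c ^ l.length • (l.map T).prod := by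
  induction l with
  | nil => simp
  | cons a l ih =>
    rw [List.map_cons, List.prod_cons, ih, List.map_cons, List.prod_cons, List.length_cons,
      smul_mul_smul_comm, pow_succ']

omit [CompleteSpace H] in
lemma prod_smul_ofFn (c : ℂ) (T : Fin k → (H →L[ℂ] H)) {n : ℕ} (w : Fin n → Fin k) :
    (List.ofFn fun t => c • T (w t)).prod = c ^ n • (List.ofFn fun t => T (w t)).prod := by
  have h := prod_smul_list c T (List.ofFn w)
  rw [List.map_ofFn, List.map_ofFn, List.length_ofFn] at h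
  exact h

/-- simultaneous strictly triangular norm approximation, joint spectral radius zero -/
theorem main_jsr (T : Fin k → (H →L[ℂ] H)) (hT : ∀ i, T i ∈ M)
    (hq : ∀ r : ℝ, 0 < r → ∃ n : ℕ, 1 ≤ n ∧ ∀ w : Fin n → Fin k,
      ‖(List.ofFn fun t => T (w t)).prod‖ ≤ r ^ n)
    {δ : ℝ} (hδ : 0 < δ) :
    ∃ (J : ℕ) (P : ℕ → (H →L[ℂ] H)) (N : Fin k → (H →L[ℂ] H)) (κ : ℝ),
      0 < κ ∧ P 0 = 0 ∧ P J = 1 ∧
      (∀ j, P j ∈ M ∧ IsStarProjection (P j) ∧ P (j + 1) * P j = P j) ∧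
      (∀ i, N i ∈ M ∧ ‖T i - N i‖ ≤ δ) ∧
      (∀ i j, N i * P (j + 1) = P j * N i * P (j + 1)) ∧
      (∀ w : List (Fin k), J ≤ w.length → (w.map N).prod = 0) ∧
      ((∃ i, δ < ‖T i‖) → ∃ j, P j ≠ 0 ∧ P j ≠ 1) ∧
      ∀ S : H →L[ℂ] H, (∀ i, ‖S * T i - T i * S‖ ≤ κ * ‖S‖) →
        ∀ j, ‖(1 - P (j + 1)) * S * P j‖ ≤ δ * ‖S‖ := by
  set C : ℝ := √(∑ i, ‖T i‖ ^ 2) + 1 with hCdef
  have hC1 : 1 ≤ C := by
    have := Real.sqrt_nonneg (∑ i, ‖T i‖ ^ 2)
    linarith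
  have hC0 : 0 < C := by linarith
  have hCs : ∑ i, ‖T i‖ ^ 2 ≤ C ^ 2 := by
    have h0 : 0 ≤ ∑ i, ‖T i‖ ^ 2 := Finset.sum_nonneg fun i _ => by positivity
    have h1 := Real.sq_sqrt h0
    have h2 := Real.sqrt_nonneg (∑ i, ‖T i‖ ^ 2)
    rw [hCdef]; nlinarith
  set c : ℂ := ((C⁻¹ : ℝ) : ℂ) with hc
  have hcn : ‖c‖ = C⁻¹ := by
    rw [hc, Complex.norm_real, Real.norm_eq_abs, abs_of_pos (by positivity)]
  have hCi : C⁻¹ ≤ 1 := inv_le_one_of_one_le₀ hC1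
  set T' : Fin k → (H →L[ℂ] H) := fun i => c • T i with hT'
  have hTM : ∀ i, T' i ∈ M := fun i => vn_smul _ (hT i)
  have hTc : ∀ v, ∑ i, ‖T' i v‖ ^ 2 ≤ ‖v‖ ^ 2 := by
    intro v
    calc ∑ i, ‖T' i v‖ ^ 2 ≤ ∑ i, (C⁻¹) ^ 2 * ‖v‖ ^ 2 * ‖T i‖ ^ 2 := by
          refine Finset.sum_le_sum fun i _ => ?_
          have h1 : ‖T' i v‖ ≤ C⁻¹ * (‖T i‖ * ‖v‖) := by
            rw [hT']
            simp only [smul_apply]
            rw [norm_smul, hcn]
            gcongr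
            exact (T i).le_opNorm v
          calc ‖T' i v‖ ^ 2 ≤ (C⁻¹ * (‖T i‖ * ‖v‖)) ^ 2 := by gcongr
            _ = _ := by ring
      _ = (C⁻¹) ^ 2 * ‖v‖ ^ 2 * ∑ i, ‖T i‖ ^ 2 := by rw [Finset.mul_sum]
      _ ≤ (C⁻¹) ^ 2 * ‖v‖ ^ 2 * C ^ 2 := by gcongr
      _ = (C⁻¹ * C) ^ 2 * ‖v‖ ^ 2 := by ring
      _ = ‖v‖ ^ 2 := by rw [inv_mul_cancel₀ hC0.ne']; ring
  have hq' : ∀ r : ℝ, 0 < r → ∃ n : ℕ, 1 ≤ n ∧ ∀ v, Qn T' n v ≤ (r ^ 2) ^ n * ‖v‖ ^ 2 := by
    intro r hr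
    have hk0 : (0 : ℝ) < k + 1 := by positivity
    have hk : 0 < √((k : ℝ) + 1) := Real.sqrt_pos.mpr hk0
    obtain ⟨n, hn, hw⟩ := hq (r / √((k : ℝ) + 1)) (by positivity)
    refine ⟨n, hn, fun v => ?_⟩
    rw [← words]
    have h1 : ∀ w : Fin n → Fin k, ‖(List.ofFn fun t => T' (w t)).prod v‖ ^ 2 ≤
        ((r / √((k : ℝ) + 1)) ^ n * ‖v‖) ^ 2 := by
      intro w
      have h2 : ‖(List.ofFn fun t => T' (w t)).prod‖ ≤ (r / √((k : ℝ) + 1)) ^ n := by
        rw [hT', prod_smul_ofFn, norm_smul, norm_pow, hcn]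
        have h3 : (C⁻¹) ^ n ≤ 1 := pow_le_one₀ (by positivity) hCi
        calc (C⁻¹) ^ n * ‖(List.ofFn fun t => T (w t)).prod‖
            ≤ 1 * (r / √((k : ℝ) + 1)) ^ n := by
              have := hw w
              gcongr
          _ = _ := one_mul _
      have h3 : ‖(List.ofFn fun t => T' (w t)).prod v‖ ≤ (r / √((k : ℝ) + 1)) ^ n * ‖v‖ := by
        refine ((List.ofFn fun t => T' (w t)).prod.le_opNorm v).trans ?_
        gcongr
      gcongr
    refine (Finset.sum_le_sum fun w _ => h1 w).trans ?_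
    rw [Finset.sum_const, Finset.card_univ, Fintype.card_fun, Fintype.card_fin, Fintype.card_fin,
      nsmul_eq_mul]
    have h4 : ((r / √((k : ℝ) + 1)) ^ n * ‖v‖) ^ 2 = (r ^ 2) ^ n * (((k : ℝ) + 1)⁻¹) ^ n * ‖v‖ ^ 2 := by
      have h5 : (r / √((k : ℝ) + 1)) ^ 2 = r ^ 2 * ((k : ℝ) + 1)⁻¹ := by
        rw [div_pow, Real.sq_sqrt hk0.le, div_eq_mul_inv]
      rw [mul_pow, ← pow_mul, mul_comm n 2, pow_mul, h5, mul_pow]
    rw [h4]
    have h6 : (((k ^ n : ℕ)) : ℝ) * (((k : ℝ) + 1)⁻¹) ^ n ≤ 1 := by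
      push_cast
      rw [← mul_pow]
      apply pow_le_one₀ (by positivity)
      rw [← div_eq_mul_inv, div_le_one hk0]; linarith
    calc (((k ^ n : ℕ)) : ℝ) * ((r ^ 2) ^ n * (((k : ℝ) + 1)⁻¹) ^ n * ‖v‖ ^ 2)
        = ((((k ^ n : ℕ)) : ℝ) * (((k : ℝ) + 1)⁻¹) ^ n) * ((r ^ 2) ^ n * ‖v‖ ^ 2) := by ring
      _ ≤ 1 * ((r ^ 2) ^ n * ‖v‖ ^ 2) := by gcongr
      _ = _ := one_mul _
  obtain ⟨J, P, N, κ, hκ, hP0, hPJ, hP, hNM, hTN, hNt, hNp, hS⟩ :=
    main_norm (T := T') hTM hTc hq' (δ := δ / C) (by positivity)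
  have hcC : c * ((C : ℝ) : ℂ) = 1 := by
    rw [hc]; push_cast
    rw [inv_mul_cancel₀]
    exact_mod_cast hC0.ne'
  have hTT : ∀ i, T i = ((C : ℝ) : ℂ) • T' i := by
    intro i
    rw [hT']
    simp only
    rw [smul_smul, mul_comm, hcC, one_smul]
  set N' : Fin k → (H →L[ℂ] H) := fun i => ((C : ℝ) : ℂ) • N i with hN'
  have hnC : ‖(((C : ℝ)) : ℂ)‖ = C := by
    rw [Complex.norm_real, Real.norm_eq_abs, abs_of_pos hC0]
  have hdist : ∀ i, ‖T i - N' i‖ ≤ δ := by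
    intro i
    have h1 : T i - N' i = ((C : ℝ) : ℂ) • (T' i - N i) := by
      rw [hTT i, hN', smul_sub]
    have h2 : ‖T' i - N i‖ ≤ δ / C := by
      apply ContinuousLinearMap.opNorm_le_bound _ (by positivity)
      intro v
      have h3 : ‖(T' i - N i) v‖ ^ 2 ≤ (δ / C * ‖v‖) ^ 2 := by
        refine le_trans ?_ (hTN v)
        exact Finset.single_le_sum (f := fun i => ‖(T' i - N i) v‖ ^ 2)
          (fun l _ => by positivity) (Finset.mem_univ i)
      exact (abs_le_of_sq_le_sq' h3 (by positivity)).2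
    rw [h1, norm_smul, hnC]
    calc C * ‖T' i - N i‖ ≤ C * (δ / C) := by gcongr
      _ = δ := by field_simp
  have hNt' : ∀ i j, N' i * P (j + 1) = P j * N' i * P (j + 1) := by
    intro i j
    rw [hN']
    simp only [smul_mul_assoc, mul_smul_comm]
    rw [hNt]
  refine ⟨J, P, N', κ * C, by positivity, hP0, hPJ, hP, fun i => ⟨vn_smul _ (hNM i), hdist i⟩,
    hNt', ?_, ?_, ?_⟩
  · intro w hw
    rw [hN', prod_smul_list, hNp w hw, smul_zero]
  · rintro ⟨i, hi⟩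
    by_contra hcon
    push Not at hcon
    have hex : ∃ j, P j ≠ 0 := by
      refine ⟨J, fun h => ?_⟩
      rw [hPJ] at h
      have h1 : T i = 0 := by rw [← mul_one (T i), h, mul_zero]
      rw [h1, norm_zero] at hi
      linarith
    classical
    have hj1 := Nat.find_spec hex
    have hj0 : Nat.find hex ≠ 0 := fun h => hj1 (by rw [h, hP0])
    obtain ⟨j, hj⟩ := Nat.exists_eq_succ_of_ne_zero hj0
    have hj2 : P j = 0 := by
      by_contra h
      exact Nat.find_min hex (m := j) (by omega) h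
    have hj3 : P (j + 1) = 1 := by
      have := hcon (Nat.find hex) hj1
      rw [hj] at this
      exact this
    have h2 : N' i = 0 := by
      have := hNt' i j
      rw [hj2, hj3, mul_one, zero_mul, mul_one] at this
      exact this
    have h3 := hdist i
    rw [h2, sub_zero] at h3
    linarith
  · intro S hSc j
    have h1 : ∀ i, ‖S * T' i - T' i * S‖ ≤ κ * ‖S‖ := by
      intro i
      have h2 : S * T' i - T' i * S = c • (S * T i - T i * S) := by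
        rw [hT']
        simp only [smul_mul_assoc, mul_smul_comm]
        rw [smul_sub]
      rw [h2, norm_smul, hcn]
      calc C⁻¹ * ‖S * T i - T i * S‖ ≤ C⁻¹ * (κ * C * ‖S‖) := by
            have := hSc i
            gcongr
        _ = (C⁻¹ * C) * (κ * ‖S‖) := by ring
        _ = κ * ‖S‖ := by rw [inv_mul_cancel₀ hC0.ne', one_mul]
    refine (hS S h1 j).trans ?_
    have : δ / C ≤ δ := div_le_self hδ.le hC1
    gcongr

end Pool.Agent.H857N
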